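import Mathlib
import Pool.Agent.Helper11.Can.Coh
import Pool.Agent.Helper11.CanTypes

/-!
# CAN-C10: the trace of an external product (project CAN, MP_5f0950_ag)
-/

universe u v w t

open CategoryTheory Finset

namespace Pool.Agent.Helper11.Can

open Pool.Agent.Helper10 hiding IsAlgAut parityPart
open SmProjVar SPre Pool.Agent.Helper10.GIT Pool.Agent.Helper11.Iso Pool.Agent.Helper11.Can

variable {k : Type u} [Field k] {K : Type v} [Field K] [CharZero K]
  (W : WeilCohomology.{u, v, w} k K)

/-- an external product with one more factor -/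
theorem extProd_succ {A : SmProjVar k} {b : ℕ} {V : Fin (b + 1) → SmProjVar k} (x : W.H A)
    (v : ∀ i, W.H (V i)) :
    Obs.extProd W.toCohomologyData x v =
      W.pull (fst (Obs.prodVar A fun i => V i.castSucc) (V (Fin.last b)))
        (Obs.extProd W.toCohomologyData x fun i : Fin b => v i.castSucc) *
      W.pull (snd (Obs.prodVar A fun i => V i.castSucc) (V (Fin.last b))) (v (Fin.last b)) := by
  have h1 : W.pull (Obs.prodFst A V) x =
      W.pullA (fst (Obs.prodVar A fun i => V i.castSucc) (V (Fin.last b)))
        (W.pull (Obs.prodFst A fun i => V i.castSucc) x) := W.pull_comp _ _ x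
  have h2 : ∀ i : Fin b, W.pull (Obs.prodProj A V i.castSucc) (v i.castSucc) =
      W.pullA (fst (Obs.prodVar A fun i => V i.castSucc) (V (Fin.last b)))
        (W.pull (Obs.prodProj A (fun i => V i.castSucc) i) (v i.castSucc)) := by
    intro i
    have h3 : Obs.prodProj A V i.castSucc =
        fst (Obs.prodVar A fun i => V i.castSucc) (V (Fin.last b)) ≫
          Obs.prodProj A (fun i => V i.castSucc) i :=
      Fin.lastCases_castSucc (motive := fun i => (Obs.prodVar A V).toOver ⟶ (V i).toOver) i
    rw [h3]
    exact W.pull_comp _ _ _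
  have h4 : Obs.prodProj A V (Fin.last b) =
      snd (Obs.prodVar A fun i => V i.castSucc) (V (Fin.last b)) :=
    Fin.lastCases_last (motive := fun i => (Obs.prodVar A V).toOver ⟶ (V i).toOver)
  have h5 : W.pull (fst (Obs.prodVar A fun i => V i.castSucc) (V (Fin.last b)))
        (Obs.extProd W.toCohomologyData x fun i : Fin b => v i.castSucc) =
      W.pullA (fst (Obs.prodVar A fun i => V i.castSucc) (V (Fin.last b)))
        (W.pull (Obs.prodFst A fun i => V i.castSucc) x) *
      (List.ofFn fun i : Fin b =>
        W.pullA (fst (Obs.prodVar A fun i => V i.castSucc) (V (Fin.last b)))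
          (W.pull (Obs.prodProj A (fun i => V i.castSucc) i) (v i.castSucc))).prod := by
    have h6 := map_mul (W.pullA (fst (Obs.prodVar A fun i => V i.castSucc) (V (Fin.last b))))
      (W.pull (Obs.prodFst A fun i => V i.castSucc) x)
      (List.ofFn fun i : Fin b =>
        W.pull (Obs.prodProj A (fun i => V i.castSucc) i) (v i.castSucc)).prod
    rw [map_list_prod, List.map_ofFn] at h6
    exact h6
  rw [h5]
  unfold Obs.extProd Obs.wordClass
  rw [List.ofFn_succ', List.concat_eq_append, List.prod_append, List.prod_singleton, h4,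
    ← mul_assoc, h1]
  simp only [h2]
  rfl

/-- CAN-C10: the trace of an external product -/
theorem tr_extProd {A : SmProjVar k} {b : ℕ} {V : Fin b → SmProjVar k} (x : W.H A)
    (v : ∀ i, W.H (V i)) :
    W.tr _ (Obs.extProd W.toCohomologyData x v) = W.tr A x * ∏ i, W.tr (V i) (v i) := by
  induction b with
  | zero =>
    rw [Fin.prod_univ_zero, mul_one]
    have h : W.pull (𝟙 A.toOver) x * (1 : W.H A) = x := by
      rw [mul_one]
      exact W.pull_id A x
    exact congrArg (W.tr A) h
  | succ b ih =>
    rw [extProd_succ, Fin.prod_univ_castSucc, ← mul_assoc, ← ih]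
    exact W.tr_prod _ _ _ _

end Pool.Agent.Helper11.Can
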