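import Mathlib
import Pool.Agent.Helper11.Can.Coh
import Pool.Agent.Helper11.CanTypes

/-!
# CAN-C9: a basis of a piece (project CAN, MP_5f0950_ag)
-/

universe u v w t

open CategoryTheory Finset

namespace Pool.Agent.Helper11.Can

open Pool.Agent.Helper10 hiding IsAlgAut parityPart
open SmProjVar SPre Pool.Agent.Helper10.GIT Pool.Agent.Helper11.Iso Pool.Agent.Helper11.Can

/-- a family of classes of pure parity, with invertible Gram matrix, whose span is the image of an
algebraic orthogonal projector, is a piece -/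
theorem piece_of_proj {k : Type u} [Field k] {K : Type t} [Field K] {Ω : Type v} [Field Ω]
    [Algebra K Ω] {P : SPre.{u, v, w, t} k K Ω} {V : SmProjVar k} {n : ℕ} (e : Fin n → P.H V)
    (B : Matrix (Fin n) (Fin n) Ω) (hpar : (∀ b, e b ∈ P.ev V) ∨ ∀ b, e b ∈ P.od V)
    (hg : gmat P e * B = 1) {q : P.H (V.prod V)} (hq : q ∈ P.alg (V.prod V))
    (h2 : ∀ y, op q y ∈ Submodule.span Ω (Set.range e))
    (h4 : ∀ x a, P.tr V (e a * op q x) = P.tr V (e a * x)) : Piece P V n e B := by
  refine ⟨hpar, hg, ?_⟩
  have hce : ∑ a, ∑ b, B a b • P.ext V V (e a) (e b) ∈ P.ev (V.prod V) := by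
    refine Submodule.sum_mem _ fun a _ => Submodule.sum_mem _ fun b _ =>
      Submodule.smul_mem _ _ ?_
    rcases hpar with h | h
    · exact P.ev_mul_ev _ _ _ (P.pull_ev _ _ (h a)) (P.pull_ev _ _ (h b))
    · exact P.od_mul_od _ _ _ (P.pull_od _ _ (h a)) (P.pull_od _ _ (h b))
  have key : ∑ a, ∑ b, B a b • P.ext V V (e a) (e b) = q := by
    refine op_inj hce (P.alg_le_ev _ hq) fun x => ?_
    rw [op_bilinear]
    have h5 : coor P e (x - op q x) = 0 := by
      funext a
      rw [coor_apply, Pi.zero_apply]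
      have h6 : P.tr V (e a * (x - op q x)) = 0 := by
        rw [mul_sub, map_sub, h4, sub_self]
      rw [tr_par]
      rcases hpar with h | h
      · rw [par_ev (h a)]; exact h6
      · rw [par_od (h a), neg_mul, map_neg, h6, neg_zero]
    rw [map_sub, sub_eq_zero] at h5
    rw [h5]
    obtain ⟨v, hv⟩ := (Submodule.mem_span_range_iff_exists_fun Ω).mp (h2 x)
    rw [← hv, coor_sum, Iso.cls, Matrix.vecMul_vecMul, hg, Matrix.vecMul_one]
  rw [key]
  exact hq

section weil

variable {k : Type u} [Field k] {K : Type v} [Field K] [CharZero K]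
  (W : WeilCohomology.{u, v, w} k K)

/-- CAN-C9: a basis of a piece. -/
theorem exists_kpiece {V₀ : SmProjVar k} {E : Submodule K (W.H V₀)}
    (hE : Obs.IsPiece W.toCohomologyData V₀ E) :
    ∃ (n : ℕ) (e : Fin n → W.H V₀) (B : Matrix (Fin n) (Fin n) K), LinearIndependent K e ∧
      Submodule.span K (Set.range e) = E ∧
      (Matrix.of fun a b => W.pairing V₀ (e a) (e b)) * B = 1 ∧
      Piece (W.toSPre K) V₀ n (fun b => Obs.one W K (e b)) B := by
  classical
  have hfin : Module.Finite K (W.H V₀) := (W.graded V₀).finite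
  obtain ⟨u, ⟨c, hc, hu⟩, huE⟩ := hE.projector
  let b := Module.finBasis K E
  let e : Fin (Module.finrank K E) → W.H V₀ := fun i => (b i : W.H V₀)
  have heE : ∀ i, e i ∈ E := fun i => (b i).2
  have hlin : LinearIndependent K e :=
    b.linearIndependent.map' E.subtype (Submodule.ker_subtype E)
  have hspan : Submodule.span K (Set.range e) = E := by
    have h5 : Set.range e = E.subtype '' Set.range b := by
      rw [← Set.range_comp]; rfl
    rw [h5, ← Submodule.map_span, b.span_eq, Submodule.map_top, Submodule.range_subtype]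
  have hpar : (∀ b, Obs.one W K (e b) ∈ (W.toSPre K).ev V₀) ∨
      ∀ b, Obs.one W K (e b) ∈ (W.toSPre K).od V₀ := by
    obtain ⟨p, hp⟩ := hE.parity
    by_cases h : Even p
    · exact .inl fun b => Obs.one_ev W K (Obs.parityPart_le_evK W h (hp (heE b)))
    · exact .inr fun b => Obs.one_od W K (Obs.parityPart_le_odK W h (hp (heE b)))
  -- the pairing of elements of `E` is symmetric up to a sign
  have hsym : ∀ x ∈ E, ∀ y, W.pairing V₀ y x = 0 → W.pairing V₀ x y = 0 := by
    intro x hx y h
    have h1 : (W.toSPre K).tr V₀ (Obs.one W K x * Obs.one W K y) =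
        algebraMap K K (W.pairing V₀ x y) := Obs.tr_one_mul W K x y
    have h2 : (W.toSPre K).tr V₀ (Obs.one W K y * Obs.one W K x) = 0 := by
      rw [Obs.tr_one_mul, h, map_zero]
    refine (algebraMap K K).injective ?_
    rw [map_zero, ← h1]
    have h3 : (W.toSPre K).tr V₀ (Obs.one W K y * Obs.one W K x) =
        (W.toSPre K).tr V₀ (par (W.toSPre K) V₀ (Obs.one W K x) * Obs.one W K y) := tr_par _ _
    obtain ⟨p, hp⟩ := hE.parity
    by_cases hp' : Even p
    · rw [par_ev (Obs.one_ev W K (Obs.parityPart_le_evK W hp' (hp hx)))] at h3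
      rw [← h3, h2]
    · rw [par_od (Obs.one_od W K (Obs.parityPart_le_odK W hp' (hp hx))), neg_mul, map_neg,
        h2] at h3
      exact neg_eq_zero.mp h3.symm
  have hpadd : ∀ x y z, W.pairing V₀ (x + y) z = W.pairing V₀ x z + W.pairing V₀ y z := by
    intro x y z
    unfold CohomologyData.pairing
    rw [add_mul, (W.trace V₀).map_add]
  have hnd : ∀ y ∈ E, (∀ x ∈ E, W.pairing V₀ x y = 0) → y = 0 := by
    intro y hy h
    refine (W.trace V₀).nondegenerate y fun z => ?_
    have h1 : W.pairing V₀ y (u z) = W.pairing V₀ y z := (huE z).2 y hy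
    change W.pairing V₀ y z = 0
    rw [← h1]
    exact hsym y hy _ (h _ (huE z).1)
  have hdet : (Matrix.of fun a b => W.pairing V₀ (e a) (e b)).det ≠ 0 := by
    intro h0
    obtain ⟨v, hv0, hv⟩ := Matrix.exists_mulVec_eq_zero_iff.mpr h0
    apply hv0
    have hy : ∑ j, v j • e j ∈ E := Submodule.sum_mem _ fun j _ => Submodule.smul_mem _ _ (heE j)
    have h7 : ∑ j, v j • e j = 0 := by
      refine hnd _ hy fun m hm => ?_
      change W.trL V₀ (m * ∑ j, v j • e j) = 0
      rw [← hspan] at hm
      induction hm using Submodule.span_induction with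
      | mem m hm =>
        obtain ⟨i, rfl⟩ := hm
        have h9 := congrFun hv i
        rw [Pi.zero_apply, Matrix.mulVec, dotProduct] at h9
        rw [Finset.mul_sum, map_sum, ← h9]
        refine sum_congr rfl fun j _ => ?_
        rw [mul_smul_comm, map_smul, smul_eq_mul, mul_comm]
        rfl
      | zero => rw [zero_mul, map_zero]
      | add x y _ _ hx hy => rw [add_mul, map_add, hx, hy, add_zero]
      | smul a x _ hx => rw [smul_mul_assoc, map_smul, hx, smul_zero]
    exact funext fun j => Fintype.linearIndependent_iff.mp hlin v h7 j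
  have hg : (Matrix.of fun a b => W.pairing V₀ (e a) (e b)) *
      (Matrix.of fun a b => W.pairing V₀ (e a) (e b))⁻¹ = 1 :=
    Matrix.mul_nonsing_inv _ (isUnit_iff_ne_zero.mpr hdet)
  have hgm : gmat (W.toSPre K) (fun b => Obs.one W K (e b)) =
      Matrix.of fun a b => W.pairing V₀ (e a) (e b) := by
    ext a b
    rw [gmat_apply, Obs.tr_one_mul]
    rfl
  refine ⟨_, e, (Matrix.of fun a b => W.pairing V₀ (e a) (e b))⁻¹, hlin, hspan, hg, ?_⟩
  refine piece_of_proj _ _ hpar (by rw [hgm]; exact hg) (Obs.one_mem_alg W K hc)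
    (fun y => ?_) fun x a => ?_
  · refine Obs.top_induction W K (p := fun y => op (Obs.one W K c) y ∈
      Submodule.span K (Set.range fun b => Obs.one W K (e b))) (fun y => ?_)
      (by rw [map_zero]; exact Submodule.zero_mem _)
      (fun a b ha hb => by rw [map_add]; exact Submodule.add_mem _ ha hb)
      (fun a b hb => by rw [map_smul]; exact Submodule.smul_mem _ _ hb) y
    rw [Obs.op_one W K hu]
    have h1 : u y ∈ Submodule.span K (Set.range e) := by rw [hspan]; exact (huE y).1
    obtain ⟨v, hv⟩ := (Submodule.mem_span_range_iff_exists_fun K).mp h1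
    rw [← hv]
    have h2 : Obs.one W K (∑ i, v i • e i) = ∑ i, v i • Obs.one W K (e i) := by
      have h3 : (1 : K) ⊗ₜ[K] (∑ i, v i • e i) = ∑ i, v i • ((1 : K) ⊗ₜ[K] (e i)) := by
        rw [TensorProduct.tmul_sum]
        refine sum_congr rfl fun i _ => ?_
        rw [TensorProduct.tmul_smul]
      exact h3
    rw [h2]
    exact Submodule.sum_mem _ fun i _ => Submodule.smul_mem _ _ (Submodule.subset_span ⟨i, rfl⟩)
  · refine Obs.top_induction W K (p := fun x => (W.toSPre K).tr V₀ (Obs.one W K (e a) *
      op (Obs.one W K c) x) = (W.toSPre K).tr V₀ (Obs.one W K (e a) * x)) (fun y => ?_)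
      (by rw [map_zero])
      (fun a b ha hb => by rw [map_add, mul_add, map_add, ha, hb, mul_add, map_add])
      (fun a b hb => by rw [map_smul, mul_smul_comm, map_smul, hb, mul_smul_comm, map_smul]) x
    rw [Obs.op_one W K hu, Obs.tr_one_mul, Obs.tr_one_mul]
    congr 1
    exact (huE y).2 _ (heE a)

end weil

end Pool.Agent.Helper11.Can
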